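import Pool.Agent.helper63.TI.SpecA

set_option autoImplicit false

namespace Pool.Agent.TI

open Polynomial NumberField Pool.Agent.GJ Pool.Agent.TK Pool.Agent.TQ Pool.Agent.TFQ Pool.Agent.TD Pool.Agent.AQ
open Pool.Agent.FJ (VT Om chiO IsFrobO rf rs)
open scoped TensorProduct
open Set

noncomputable section

theorem SPN_eg {Ω W : Type} [Field Ω] [AddCommGroup W] [Module Ω W] (Z : W →ₗ[Ω] W) (ζ : Ω) (s : ℕ) (x : W) :
    x ∈ eg Z ζ s ↔ Z x = ζ ^ s • x := by
  rw [eg, LinearMap.mem_ker, LinearMap.sub_apply, LinearMap.smul_apply, LinearMap.id_apply, sub_eq_zero]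

theorem SPN_int {Ω W : Type} [Field Ω] [AddCommGroup W] [Module Ω W] (l : ℕ) (Z : W →ₗ[Ω] W) (ζ : Ω)
    (hζ : IsPrimitiveRoot ζ l) (hD : Dec l Z ζ) :
    DirectSum.IsInternal (fun s : Fin (l - 1) => eg Z ζ ((s : ℕ) + 1)) := by
  rw [DirectSum.isInternal_submodule_iff_iSupIndep_and_iSup_eq_top]
  constructor
  · have h1 := (Module.End.eigenspaces_iSupIndep Z).comp (f := fun s : Fin (l - 1) => ζ ^ ((s : ℕ) + 1)) (by
      intro s t hst
      have h2 := hζ.pow_inj (by omega : (s : ℕ) + 1 < l) (by omega : (t : ℕ) + 1 < l) hst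
      exact Fin.ext (by omega))
    have h2 : (fun s : Fin (l - 1) => eg Z ζ ((s : ℕ) + 1)) =
        Module.End.eigenspace Z ∘ fun s : Fin (l - 1) => ζ ^ ((s : ℕ) + 1) := by
      funext s
      ext x
      rw [SPN_eg, Function.comp_apply, Module.End.mem_eigenspace_iff]
    rw [h2]
    exact h1
  · rw [eq_top_iff]
    intro w _
    obtain ⟨u, ⟨hu1, hu2⟩, -⟩ := hD w
    rw [hu2]
    exact Submodule.sum_mem _ fun s _ => Submodule.mem_iSup_of_mem s (hu1 s)

/-- the trace of an operator which is zero outside of two eigenspaces -/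
theorem SPN_tr0 {Ω W : Type} [Field Ω] [CharZero Ω] [AddCommGroup W] [Module Ω W] [FiniteDimensional Ω W]
    (l : ℕ) (Z : W →ₗ[Ω] W) (ζ : Ω) (hζ : IsPrimitiveRoot ζ l) (hD : Dec l Z ζ) (A : W →ₗ[Ω] W)
    (hAZ : A ∘ₗ Z = Z ∘ₗ A) (s : ℕ) (hs : 0 < s) (hsl : s < l)
    (hO : Only l Z ζ s A) (N : eg Z ζ s →ₗ[Ω] eg Z ζ s) (hN : ∀ x : eg Z ζ s, A x = N x) (hN0 : LinearMap.trace Ω _ N = 0)
    (hA : LinearMap.trace Ω W A = 0) (i : ℕ) :
    LinearMap.trace Ω W ((Z ^ i : Module.End Ω W) ∘ₗ A) = 0 := by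
  have hI := SPN_int l Z ζ hζ hD
  have hAe : ∀ (r : ℕ) (x : W), x ∈ eg Z ζ r → A x ∈ eg Z ζ r := by
    intro r x hx
    rw [SPN_eg] at hx ⊢
    have h1 : Z (A x) = A (Z x) := (LinearMap.congr_fun hAZ x).symm
    rw [h1, hx, map_smul]
  have hZe : ∀ (r : ℕ) (x : W), x ∈ eg Z ζ r → (Z ^ i : Module.End Ω W) x = (ζ ^ r) ^ i • x := by
    intro r x hx
    rw [SPN_eg] at hx
    induction i with
    | zero => simp
    | succ i ih =>
      rw [pow_succ', Module.End.mul_apply, ih, map_smul, hx, smul_smul, pow_succ]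
  have hm1 : ∀ r : Fin (l - 1), MapsTo A (eg Z ζ ((r : ℕ) + 1)) (eg Z ζ ((r : ℕ) + 1)) := fun r x hx => hAe _ x hx
  have hm2 : ∀ r : Fin (l - 1), MapsTo ((Z ^ i : Module.End Ω W) ∘ₗ A) (eg Z ζ ((r : ℕ) + 1)) (eg Z ζ ((r : ℕ) + 1)) := by
    intro r x hx
    show (Z ^ i : Module.End Ω W) (A x) ∈ eg Z ζ ((r : ℕ) + 1)
    rw [hZe _ _ (hAe _ x hx)]
    exact Submodule.smul_mem _ _ (hAe _ x hx)
  have ht1 := LinearMap.trace_eq_sum_trace_restrict hI hm1
  have ht2 := LinearMap.trace_eq_sum_trace_restrict hI hm2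
  -- restriction
  have hr : ∀ r : Fin (l - 1), LinearMap.trace Ω _ (((Z ^ i : Module.End Ω W) ∘ₗ A).restrict (hm2 r)) =
      (ζ ^ ((r : ℕ) + 1)) ^ i * LinearMap.trace Ω _ (A.restrict (hm1 r)) := by
    intro r
    have h1 : ((Z ^ i : Module.End Ω W) ∘ₗ A).restrict (hm2 r) = (ζ ^ ((r : ℕ) + 1)) ^ i • A.restrict (hm1 r) := by
      ext x
      show (Z ^ i : Module.End Ω W) (A x) = (ζ ^ ((r : ℕ) + 1)) ^ i • A x
      exact hZe _ _ (hAe _ x x.2)
    rw [h1, map_smul, smul_eq_mul]
  have hz : ∀ r : Fin (l - 1), (r : ℕ) + 1 ≠ s → (r : ℕ) + 1 ≠ l - s → LinearMap.trace Ω _ (A.restrict (hm1 r)) = 0 := by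
    intro r h1 h2
    have h3 : A.restrict (hm1 r) = 0 := by
      ext x
      show A x = 0
      exact hO _ (Nat.succ_pos _) (by omega) h1 h2 x x.2
    rw [h3, map_zero]
  have hs0 : ∀ r : Fin (l - 1), (r : ℕ) + 1 = s → LinearMap.trace Ω _ (A.restrict (hm1 r)) = 0 := by
    intro r h1
    subst h1
    have h3 : A.restrict (hm1 r) = N := by
      ext x
      show A x = N x
      exact hN x
    rw [h3]
    exact hN0
  have hls : l - s - 1 < l - 1 := by omega
  set r₀ : Fin (l - 1) := ⟨l - s - 1, hls⟩ with hr₀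
  have hr₀' : (r₀ : ℕ) + 1 = l - s := by
    show l - s - 1 + 1 = l - s
    omega
  have hother : ∀ r : Fin (l - 1), r ≠ r₀ → LinearMap.trace Ω _ (A.restrict (hm1 r)) = 0 := by
    intro r h1
    by_cases h2 : (r : ℕ) + 1 = s
    · exact hs0 r h2
    · refine hz r h2 fun h3 => h1 (Fin.ext ?_)
      omega
  rw [Finset.sum_eq_single r₀ (fun r _ h => hother r h) (fun h => absurd (Finset.mem_univ _) h), hA] at ht1
  rw [ht2, Finset.sum_eq_zero]
  intro r _
  rw [hr r]
  by_cases h1 : r = r₀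
  · rw [h1, ← ht1, mul_zero]
  · rw [hother r h1, mul_zero]

/-- adjoint operators have the same trace -/
theorem SPN_adj {Ω W : Type} [Field Ω] [AddCommGroup W] [Module Ω W] [FiniteDimensional Ω W]
    (E : W →ₗ[Ω] W →ₗ[Ω] Ω) (hE : ∀ x, (∀ y, E x y = 0) → x = 0) (f g : W →ₗ[Ω] W) (h : ∀ x y, E (f x) y = E x (g y)) :
    LinearMap.trace Ω W f = LinearMap.trace Ω W g := by
  have hinj : Function.Injective E := by
    rw [injective_iff_map_eq_zero]
    intro x hx
    exact hE x fun y => by rw [hx]; rfl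
  set e : W ≃ₗ[Ω] Module.Dual Ω W := LinearEquiv.ofInjectiveOfFinrankEq E hinj (Subspace.dual_finrank_eq).symm with he
  have hee : ∀ x, e x = E x := fun x => rfl
  have h1 : e.conj f = Module.Dual.transpose (R := Ω) g := by
    ext φ y
    obtain ⟨x, rfl⟩ := e.surjective φ
    rw [LinearEquiv.conj_apply_apply, LinearEquiv.symm_apply_apply, hee, hee, h]
    rfl
  rw [← LinearMap.trace_conj' f e, h1, LinearMap.trace_transpose']

theorem SPN (hDES : DES_stmt) (hLDE : AQ.LDE_stmt) (hLSK : AQ.LSK_stmt) : SPN_stmt := by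
  intro k Ω V _ _ _ _ _ _ _ _ l n hl hl2 Z v b hb hZ ζ hζ E hE hEa hEZ s hs hsl N hN0
  have hEs : ∀ x y, E x y = - E y x := by
    intro x y
    have h1 := hEa (x + y)
    simp only [map_add, LinearMap.add_apply, hEa] at h1
    linear_combination h1
  obtain ⟨-, hD⟩ := hLDE k Ω V l n hl Z v b hb hZ ζ hζ
  set E' : Ω ⊗[k] V →ₗ[Ω] Ω ⊗[k] V →ₗ[Ω] Ω := LinearMap.BilinForm.baseChange Ω E with hE'
  have hEt : ∀ (a a' : Ω) (x y : V), E' (a ⊗ₜ x) (a' ⊗ₜ y) = (E x y) • (a * a') := fun a a' x y => rfl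
  have hEs' : ∀ x y, E' x y = - E' y x := by
    intro x y
    induction x using TensorProduct.induction_on with
    | zero => simp
    | add x x' h1 h2 => rw [map_add, LinearMap.add_apply, h1, h2, map_add]; ring
    | tmul a x =>
      induction y using TensorProduct.induction_on with
      | zero => simp
      | add y y' h1 h2 => rw [map_add, h1, h2, map_add, LinearMap.add_apply]; ring
      | tmul a' y => rw [hEt, hEt, hEs x y, neg_smul, mul_comm a a']
  have hEZ' : ∀ x y, E' (LinearMap.baseChange Ω Z x) (LinearMap.baseChange Ω Z y) = E' x y := by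
    intro x y
    induction x using TensorProduct.induction_on with
    | zero => simp
    | add x x' h1 h2 => rw [map_add, map_add, LinearMap.add_apply, h1, h2, map_add, LinearMap.add_apply]
    | tmul a x =>
      induction y using TensorProduct.induction_on with
      | zero => simp
      | add y y' h1 h2 => rw [map_add, map_add, h1, h2, map_add]
      | tmul a' y => rw [LinearMap.baseChange_tmul, LinearMap.baseChange_tmul, hEt, hEt, hEZ]
  have hnd : LinearMap.BilinForm.Nondegenerate E := by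
    constructor
    · exact hE
    · intro y hy
      refine hE y fun x => ?_
      rw [hEs, hy x, neg_zero]
  have hnd' : ∀ x, (∀ y, E' x y = 0) → x = 0 := by
    intro x hx
    classical
    have h1 : ∀ i, (Algebra.TensorProduct.basis Ω b).repr x i = 0 := by
      intro i
      have h2 : ∀ x, E' x (1 ⊗ₜ LinearMap.BilinForm.dualBasis E hnd b i) = - (Algebra.TensorProduct.basis Ω b).repr x i := by
        intro x
        rw [hEs']
        congr 1
        induction x using TensorProduct.induction_on with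
        | zero => simp
        | add x x' h1 h2 => rw [map_add, h1, h2, map_add, Finsupp.add_apply]
        | tmul a x =>
          rw [hEt, Algebra.TensorProduct.basis_repr_tmul]
          have h3 : E (LinearMap.BilinForm.dualBasis E hnd b i) x = b.repr x i := by
            conv_lhs => rw [← b.sum_repr x]
            rw [map_sum]
            simp only [map_smul, LinearMap.BilinForm.apply_dualBasis_left, smul_eq_mul, mul_ite, mul_one, mul_zero]
            rw [Finset.sum_ite_eq' Finset.univ i]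
            simp
          rw [h3]
          simp [Algebra.smul_def, mul_comm]
      have h3 := h2 x
      rw [hx] at h3
      exact neg_eq_zero.mp h3.symm
    exact (Algebra.TensorProduct.basis Ω b).repr.injective (by
      ext i
      rw [h1, map_zero]
      rfl)
  obtain ⟨hL1, -, -⟩ := hLSK Ω (Ω ⊗[k] V) l n hl hl2 (LinearMap.baseChange Ω Z) ζ hζ hD E' hnd' hEs' hEZ'
  obtain ⟨A, ⟨⟨hAZ, hAs⟩, hAN, hAO⟩, -⟩ := hL1 s hs hsl N
  have htA : LinearMap.trace Ω (Ω ⊗[k] V) A = 0 := by
    have h1 := SPN_adj E' hnd' A (-A) (fun x y => by rw [hAs, LinearMap.neg_apply, map_neg])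
    have h3 : LinearMap.trace Ω (Ω ⊗[k] V) (-A) = -LinearMap.trace Ω (Ω ⊗[k] V) A := by
      have h4 : -A = (-1 : Ω) • A := by
        ext x
        simp
      rw [h4, map_smul, smul_eq_mul, neg_one_mul]
    rw [h3] at h1
    have h2 : (2 : Ω) * LinearMap.trace Ω (Ω ⊗[k] V) A = 0 := by linear_combination h1
    exact (mul_eq_zero.mp h2).resolve_left two_ne_zero
  have htr := SPN_tr0 l (LinearMap.baseChange Ω Z) ζ hζ hD A hAZ s hs hsl hAO N hAN hN0 htA
  obtain ⟨hDE1, hDE2⟩ := hDES k Ω V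
  obtain ⟨m, c, A', hc, hA'⟩ := hDE1 A
  have hAt : ∀ x : V, A (1 ⊗ₜ x) = ∑ j, c j ⊗ₜ[k] A' j x := by
    intro x
    rw [hA', LinearMap.sum_apply]
    refine Finset.sum_congr rfl fun j _ => ?_
    rw [LinearMap.smul_apply, LinearMap.baseChange_tmul, TensorProduct.smul_tmul', smul_eq_mul, mul_one]
  have hlin := Fintype.linearIndependent_iff.mp hc
  refine ⟨m, c, A', fun j => ⟨?_, ?_, ?_⟩, ?_, ?_⟩
  · ext x
    have h1 : ∑ j, c j ⊗ₜ[k] (A' j (Z x) - Z (A' j x)) = 0 := by
      have h2 := LinearMap.congr_fun hAZ (1 ⊗ₜ x)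
      rw [LinearMap.comp_apply, LinearMap.comp_apply, LinearMap.baseChange_tmul, hAt, hAt, map_sum] at h2
      simp only [TensorProduct.tmul_sub, LinearMap.baseChange_tmul, Finset.sum_sub_distrib] at h2 ⊢
      rw [h2, sub_self]
    exact sub_eq_zero.mp (hDE2 m c _ hc h1 j)
  · intro x y
    have h1 : ∑ j, (E (A' j x) y + E x (A' j y)) • c j = 0 := by
      have h2 := hAs (1 ⊗ₜ x) (1 ⊗ₜ y)
      rw [hAt, hAt, map_sum, map_sum, LinearMap.sum_apply] at h2
      simp only [hEt, mul_one, one_mul] at h2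
      simp only [add_smul, Finset.sum_add_distrib]
      rw [h2]
      exact neg_add_cancel _
    exact hlin _ h1 j
  · intro i
    have h1 : ∑ j, LinearMap.trace k V ((Z ^ i : Module.End k V) ∘ₗ A' j) • c j = 0 := by
      rw [← htr i, hA']
      have h2 : ((LinearMap.baseChange Ω Z : Module.End Ω (Ω ⊗[k] V)) ^ i) ∘ₗ ∑ j, c j • LinearMap.baseChange Ω (A' j) =
          ∑ j, c j • LinearMap.baseChange Ω ((Z ^ i : Module.End k V) ∘ₗ A' j) := by
        have h3 : (LinearMap.baseChange Ω Z : Module.End Ω (Ω ⊗[k] V)) ^ i =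
            LinearMap.baseChange Ω (Z ^ i : Module.End k V) := (LinearMap.baseChange_pow (R := k) (A := Ω) (M := V) Z i).symm
        rw [h3]
        refine LinearMap.ext fun x => ?_
        rw [LinearMap.comp_apply, LinearMap.sum_apply, LinearMap.sum_apply, map_sum]
        refine Finset.sum_congr rfl fun j _ => ?_
        rw [LinearMap.smul_apply, LinearMap.smul_apply, map_smul, LinearMap.baseChange_comp]
        rfl
      rw [h2, map_sum]
      refine Finset.sum_congr rfl fun j _ => ?_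
      rw [map_smul, LinearMap.trace_baseChange, Algebra.smul_def, smul_eq_mul, mul_comm]
    exact hlin _ h1 j
  · intro x
    rw [← hAN x, hA', LinearMap.sum_apply]
    rfl
  · intro r hr hrl hrs hrls x hx
    have h1 := hAO r hr hrl hrs hrls x hx
    rw [hA', LinearMap.sum_apply] at h1
    exact h1

end

end Pool.Agent.TI
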